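import Mathlib

set_option autoImplicit false

namespace Pool.Agent.Lib.MP_5cf805_al

open Cardinal Module

universe u v w

variable {F : Type u} [Field F]

/-- Extending an injective linear map defined on a subspace to an isomorphism. -/
lemma exists_equiv_extend {V V' : Type v} [AddCommGroup V] [Module F V] [AddCommGroup V']
    [Module F V'] (U : Submodule F V) (ψ : U →ₗ[F] V') (hψ : Function.Injective ψ)
    (h : Module.rank F (V ⧸ U) = Module.rank F (V' ⧸ LinearMap.range ψ)) :
    ∃ e : V ≃ₗ[F] V', ∀ u : U, e u = ψ u := by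
  obtain ⟨C, hC⟩ := U.exists_isCompl
  obtain ⟨C', hC'⟩ := (LinearMap.range ψ).exists_isCompl
  have h1 : Nonempty (C ≃ₗ[F] C') := by
    rw [Module.nonempty_linearEquiv_iff_rank_eq,
      ← (Submodule.quotientEquivOfIsCompl U C hC).rank_eq,
      ← (Submodule.quotientEquivOfIsCompl _ C' hC').rank_eq, h]
  obtain ⟨eC⟩ := h1
  refine ⟨(Submodule.prodEquivOfIsCompl U C hC).symm ≪≫ₗ
    (LinearEquiv.prodCongr (LinearEquiv.ofInjective ψ hψ) eC) ≪≫ₗ
    Submodule.prodEquivOfIsCompl _ _ hC', fun u => ?_⟩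
  simp

/-- Lifting surjections with kernels of the same rank. -/
lemma exists_equiv_lift {V V' Q : Type v} [AddCommGroup V] [Module F V] [AddCommGroup V']
    [Module F V'] [AddCommGroup Q] [Module F Q] (p : V →ₗ[F] Q) (hp : Function.Surjective p)
    (p' : V' →ₗ[F] Q) (hp' : Function.Surjective p')
    (h : Module.rank F (LinearMap.ker p) = Module.rank F (LinearMap.ker p')) :
    ∃ e : V ≃ₗ[F] V', ∀ x : V, p' (e x) = p x := by
  obtain ⟨s, hs⟩ := LinearMap.exists_rightInverse_of_surjective p (LinearMap.range_eq_top.2 hp)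
  obtain ⟨s', hs'⟩ := LinearMap.exists_rightInverse_of_surjective p' (LinearMap.range_eq_top.2 hp')
  have hs1 : ∀ q, p (s q) = q := fun q => by
    have := LinearMap.congr_fun hs q
    simpa using this
  have hs1' : ∀ q, p' (s' q) = q := fun q => by
    have := LinearMap.congr_fun hs' q
    simpa using this
  obtain ⟨eK⟩ := Module.nonempty_linearEquiv_iff_rank_eq.2 h
  let r : V →ₗ[F] LinearMap.ker p :=
    LinearMap.codRestrict (LinearMap.ker p) (LinearMap.id - s ∘ₗ p) (fun x => by simp [hs1])
  let f : V →ₗ[F] V' := s' ∘ₗ p + (LinearMap.ker p').subtype ∘ₗ eK.toLinearMap ∘ₗ r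
  have hf : ∀ x, f x = s' (p x) + (eK (r x) : V') := fun x => rfl
  have hr : ∀ x, (r x : V) = x - s (p x) := fun x => rfl
  have hpf : ∀ x, p' (f x) = p x := by
    intro x
    rw [hf, map_add, hs1']
    have : p' (eK (r x) : V') = 0 := (eK (r x)).2
    rw [this, add_zero]
  refine ⟨LinearEquiv.ofBijective f ⟨?_, ?_⟩, hpf⟩
  · rw [injective_iff_map_eq_zero]
    intro x hx
    have h1 : p x = 0 := by rw [← hpf, hx, map_zero]
    have h2 : eK (r x) = 0 := by
      apply Subtype.ext
      have := hf x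
      rw [hx, h1, map_zero, zero_add] at this
      exact this.symm
    have h3 : r x = 0 := by simpa using h2
    have h4 : (r x : V) = 0 := by rw [h3]; rfl
    rw [hr, h1, map_zero, sub_zero] at h4
    exact h4
  · intro y
    have hk : y - s' (p' y) ∈ LinearMap.ker p' := by simp [hs1']
    refine ⟨s (p' y) + (eK.symm ⟨_, hk⟩ : LinearMap.ker p), ?_⟩
    have h0 : p ((eK.symm ⟨_, hk⟩ : LinearMap.ker p) : V) = 0 := (eK.symm ⟨_, hk⟩).2
    have h1 : p (s (p' y) + (eK.symm ⟨_, hk⟩ : LinearMap.ker p)) = p' y := by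
      rw [map_add, hs1, h0, add_zero]
    have h2 : r (s (p' y) + (eK.symm ⟨_, hk⟩ : LinearMap.ker p)) = eK.symm ⟨_, hk⟩ := by
      apply Subtype.ext
      rw [hr, h1]; simp
    rw [hf, h1, h2]
    simp

section Models

variable {V : Type v} [AddCommGroup V] [Module F V]

lemma rank_model (U : Submodule F V) (hV : ℵ₀ ≤ Module.rank F V) :
    Module.rank F ((ℕ →₀ U) × V) = Module.rank F V := by
  rw [rank_prod', rank_finsupp]
  have h1 : Module.rank F U ≤ Module.rank F V := Submodule.rank_le U
  simp only [mk_nat, lift_aleph0, lift_uzero]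
  apply Cardinal.add_eq_right hV
  calc ℵ₀ * Module.rank F U ≤ Module.rank F V * Module.rank F V := by gcongr
    _ = Module.rank F V := Cardinal.mul_eq_self hV

/-- If `U` has codimension `rank V` then `V` is a sum of countably many copies of `U` and more,
the zeroth copy being `U`. -/
lemma exists_model (U : Submodule F V) (hV : ℵ₀ ≤ Module.rank F V)
    (hU : Module.rank F (V ⧸ U) = Module.rank F V) :
    ∃ e : V ≃ₗ[F] (ℕ →₀ U) × V, ∀ u : U, e u = (Finsupp.single 0 u, 0) := by
  let ψ : U →ₗ[F] (ℕ →₀ U) × V := LinearMap.inl F (ℕ →₀ U) V ∘ₗ Finsupp.lsingle 0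
  have hψ : Function.Injective ψ := by
    intro x y hxy
    have h1 : Finsupp.single 0 x = Finsupp.single 0 y := congrArg Prod.fst hxy
    exact Finsupp.single_injective 0 h1
  refine exists_equiv_extend U ψ hψ ?_
  rw [hU]
  apply le_antisymm
  · let q : ((ℕ →₀ U) × V) ⧸ LinearMap.range ψ →ₗ[F] V :=
      (LinearMap.range ψ).liftQ (LinearMap.snd F (ℕ →₀ U) V) (by
        rintro _ ⟨x, rfl⟩
        rfl)
    refine LinearMap.rank_le_of_surjective q ?_
    intro x
    exact ⟨Submodule.Quotient.mk (0, x), rfl⟩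
  · calc Module.rank F (((ℕ →₀ U) × V) ⧸ LinearMap.range ψ)
        ≤ Module.rank F ((ℕ →₀ U) × V) := rank_quotient_le _
      _ = Module.rank F V := rank_model U hV

/-- Dual form: a surjection whose kernel has rank `rank V` is the zeroth coordinate of a model. -/
lemma exists_model' (U : Submodule F V) (hV : ℵ₀ ≤ Module.rank F V) (p : V →ₗ[F] U)
    (hp : Function.Surjective p) (hU : Module.rank F (LinearMap.ker p) = Module.rank F V) :
    ∃ e : V ≃ₗ[F] (ℕ →₀ U) × V, ∀ x : V, (e x).1 0 = p x := by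
  let p' : (ℕ →₀ U) × V →ₗ[F] U := Finsupp.lapply 0 ∘ₗ LinearMap.fst F (ℕ →₀ U) V
  have hp' : Function.Surjective p' := by
    intro x
    exact ⟨(Finsupp.single 0 x, 0), by simp [p']⟩
  refine exists_equiv_lift p hp p' hp' ?_
  rw [hU]
  apply le_antisymm
  · let q : V →ₗ[F] LinearMap.ker p' :=
      LinearMap.codRestrict _ (LinearMap.inr F (ℕ →₀ U) V) (fun x => by simp [p'])
    refine LinearMap.rank_le_of_injective q ?_
    intro x y hxy
    exact congrArg (fun z : LinearMap.ker p' => (z : (ℕ →₀ U) × V).2) hxy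
  · calc Module.rank F (LinearMap.ker p')
        ≤ Module.rank F ((ℕ →₀ U) × V) := Submodule.rank_le _
      _ = Module.rank F V := rank_model U hV

/-- A space of infinite dimension splits into two subspaces of full dimension. -/
lemma exists_split (hV : ℵ₀ ≤ Module.rank F V) :
    ∃ A B : Submodule F V, IsCompl A B ∧ Module.rank F A = Module.rank F V ∧
      Module.rank F B = Module.rank F V := by
  have h1 : Module.rank F (V × V) = Module.rank F V := by
    rw [rank_prod']; exact Cardinal.add_eq_self hV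
  obtain ⟨e⟩ := Module.nonempty_linearEquiv_iff_rank_eq.2 h1
  have hc : IsCompl (LinearMap.range (LinearMap.inl F V V)) (LinearMap.range (LinearMap.inr F V V)) :=
    LinearMap.isCompl_range_inl_inr
  refine ⟨(LinearMap.range (LinearMap.inl F V V)).map e.toLinearMap,
    (LinearMap.range (LinearMap.inr F V V)).map e.toLinearMap, ?_, ?_, ?_⟩
  · exact hc.map (Submodule.orderIsoMapComap e)
  · rw [LinearEquiv.rank_map_eq, ← Submodule.map_top, rank_map_eq LinearMap.inl_injective, rank_top]
  · rw [LinearEquiv.rank_map_eq, ← Submodule.map_top, rank_map_eq LinearMap.inr_injective, rank_top]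

end Models

end Pool.Agent.Lib.MP_5cf805_al

namespace Pool.Agent.Lib.MP_5cf805_al

open Cardinal Module Pointwise

universe u v

section Action

variable {F : Type u} {V : Type v} [Field F] [AddCommGroup V] [Module F V]

lemma mem_smul_sub (g : V ≃ₗ[F] V) (U : Submodule F V) (x : V) : x ∈ g • U ↔ g.symm x ∈ U := by
  constructor
  · rintro ⟨y, hy, rfl⟩
    have : g.symm (g y) = y := g.symm_apply_apply y
    show g.symm (g y) ∈ U
    rw [this]; exact hy
  · intro h
    exact ⟨g.symm x, h, g.apply_symm_apply x⟩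

lemma smul_mem_sub (g : V ≃ₗ[F] V) (U : Submodule F V) {x : V} (hx : x ∈ U) : g x ∈ g • U := by
  rw [mem_smul_sub]; simpa using hx

lemma smul_eq_map (g : V ≃ₗ[F] V) (U : Submodule F V) : g • U = U.map g.toLinearMap := by
  ext x
  rw [mem_smul_sub]
  constructor
  · intro h; exact ⟨g.symm x, h, by simp⟩
  · rintro ⟨y, hy, rfl⟩
    simpa using hy

lemma smul_top (g : V ≃ₗ[F] V) : g • (⊤ : Submodule F V) = ⊤ := by
  ext x
  rw [mem_smul_sub]
  simp

lemma smul_bot (g : V ≃ₗ[F] V) : g • (⊥ : Submodule F V) = ⊥ := by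
  ext x; simp

lemma smul_inf (g : V ≃ₗ[F] V) (U W : Submodule F V) : g • (U ⊓ W) = g • U ⊓ g • W := by
  ext x; simp [mem_smul_sub]

lemma smul_sup (g : V ≃ₗ[F] V) (U W : Submodule F V) : g • (U ⊔ W) = g • U ⊔ g • W := by
  simp only [smul_eq_map, Submodule.map_sup]

lemma smul_mono (g : V ≃ₗ[F] V) {U W : Submodule F V} (h : U ≤ W) : g • U ≤ g • W := by
  intro x hx
  rw [mem_smul_sub] at hx ⊢
  exact h hx

lemma smul_le_iff (g : V ≃ₗ[F] V) {U W : Submodule F V} : g • U ≤ W ↔ U ≤ g⁻¹ • W := by
  constructor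
  · intro h
    have := smul_mono g⁻¹ h
    rwa [inv_smul_smul] at this
  · intro h
    have := smul_mono g h
    rwa [smul_inv_smul] at this

lemma rank_smul (g : V ≃ₗ[F] V) (U : Submodule F V) : Module.rank F ↥(g • U) = Module.rank F U := by
  rw [smul_eq_map, LinearEquiv.rank_map_eq]


/-- If `A ⊓ B = ⊥` then the codimension of `A` is at least the dimension of `B`. -/
lemma rank_le_rank_quotient {A B : Submodule F V} (h : A ⊓ B = ⊥) :
    Module.rank F B ≤ Module.rank F (V ⧸ A) := by
  refine LinearMap.rank_le_of_injective (A.mkQ ∘ₗ B.subtype) ?_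
  rw [injective_iff_map_eq_zero]
  intro x hx
  have h1 : (x : V) ∈ A := by
    have : A.mkQ (x : V) = 0 := hx
    simpa using this
  have h2 : (x : V) ∈ A ⊓ B := ⟨h1, x.2⟩
  rw [h] at h2
  exact Subtype.ext (by simpa using h2)

lemma sup_inf_eq_bot {A A₁ B D : Submodule F V} (hA : A ≤ A₁) (hD : D ≤ A₁) (hAD : A ⊓ D = ⊥)
    (hB : A₁ ⊓ B = ⊥) : (A ⊔ B) ⊓ D = ⊥ := by
  rw [eq_bot_iff]
  rintro x ⟨hx1, hx2⟩
  obtain ⟨a, ha, b, hb, rfl⟩ := Submodule.mem_sup.1 hx1
  have h1 : b ∈ A₁ := by
    have := A₁.sub_mem (hD hx2) (hA ha)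
    simpa using this
  have h2 : b ∈ A₁ ⊓ B := ⟨h1, hb⟩
  rw [hB] at h2
  have h3 : b = 0 := by simpa using h2
  subst h3
  rw [← hAD]
  exact ⟨by simpa using ha, hx2⟩

/-- Extending a partially defined isomorphism, given on a common source. -/
lemma exists_equiv_extend₂ {X V' : Type v} [AddCommGroup X] [Module F X] [AddCommGroup V']
    [Module F V'] (α : X →ₗ[F] V) (β : X →ₗ[F] V') (hα : Function.Injective α)
    (hβ : Function.Injective β)
    (h : Module.rank F (V ⧸ LinearMap.range α) = Module.rank F (V' ⧸ LinearMap.range β)) :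
    ∃ e : V ≃ₗ[F] V', ∀ x : X, e (α x) = β x := by
  let eα := LinearEquiv.ofInjective α hα
  have hr : LinearMap.range (β ∘ₗ eα.symm.toLinearMap) = LinearMap.range β := by
    rw [LinearMap.range_comp, LinearEquiv.range, Submodule.map_top]
  obtain ⟨e, he⟩ := exists_equiv_extend (LinearMap.range α) (β ∘ₗ eα.symm.toLinearMap)
    (hβ.comp eα.symm.injective) (by rw [hr, h])
  refine ⟨e, fun x => ?_⟩
  have h1 := he (eα x)
  simpa [eα] using h1

lemma coprod_injective {X Y : Submodule F V} (f : X →ₗ[F] V) (g : Y →ₗ[F] V)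
    (hf : Function.Injective f) (hg : Function.Injective g)
    (h : LinearMap.range f ⊓ LinearMap.range g = ⊥) :
    Function.Injective (LinearMap.coprod f g) := by
  rw [injective_iff_map_eq_zero]
  rintro ⟨x, y⟩ hxy
  rw [LinearMap.coprod_apply] at hxy
  have h1 : f x = g (-y) := by
    rw [map_neg]; exact eq_neg_of_add_eq_zero_left hxy
  have h2 : f x ∈ LinearMap.range f ⊓ LinearMap.range g := ⟨⟨x, rfl⟩, ⟨-y, h1.symm⟩⟩
  rw [h] at h2
  have h3 : f x = 0 := by simpa using h2
  have h4 : x = 0 := hf (by rw [h3, map_zero])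
  have h5 : y = 0 := by
    apply hg
    rw [map_zero, ← neg_eq_zero, ← map_neg, ← h1, h3]
  rw [h4, h5]
  rfl

/-- Two partial isomorphisms with independent sources and independent targets, the joint source
and the joint target having full codimension, extend to an automorphism. -/
lemma exists_glue {A B : Submodule F V} (p q : V ≃ₗ[F] V)
    (hAB : A ⊓ B = ⊥) (hpq : (p • A) ⊓ (q • B) = ⊥)
    (h1 : Module.rank F (V ⧸ (A ⊔ B)) = Module.rank F V)
    (h2 : Module.rank F (V ⧸ ((p • A) ⊔ (q • B))) = Module.rank F V) :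
    ∃ g : V ≃ₗ[F] V, (∀ x ∈ A, g x = p x) ∧ ∀ x ∈ B, g x = q x := by
  have hrA : LinearMap.range (p.toLinearMap ∘ₗ A.subtype) = p • A := by
    rw [smul_eq_map, LinearMap.range_comp, Submodule.range_subtype]
  have hrB : LinearMap.range (q.toLinearMap ∘ₗ B.subtype) = q • B := by
    rw [smul_eq_map, LinearMap.range_comp, Submodule.range_subtype]
  let α : (A × B) →ₗ[F] V := LinearMap.coprod A.subtype B.subtype
  let β : (A × B) →ₗ[F] V :=
    LinearMap.coprod (p.toLinearMap ∘ₗ A.subtype) (q.toLinearMap ∘ₗ B.subtype)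
  have hα : Function.Injective α := by
    apply coprod_injective _ _ A.injective_subtype B.injective_subtype
    rw [Submodule.range_subtype, Submodule.range_subtype, hAB]
  have hβ : Function.Injective β := by
    apply coprod_injective _ _ (p.injective.comp A.injective_subtype)
      (q.injective.comp B.injective_subtype)
    rw [hrA, hrB, hpq]
  obtain ⟨g, hg⟩ := exists_equiv_extend₂ α β hα hβ (by
    rw [LinearMap.range_coprod, LinearMap.range_coprod, hrA, hrB, Submodule.range_subtype,
      Submodule.range_subtype, h1, h2])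
  refine ⟨g, fun x hx => ?_, fun x hx => ?_⟩
  · have := hg (⟨x, hx⟩, 0)
    simpa [α, β] using this
  · have := hg (0, ⟨x, hx⟩)
    simpa [α, β] using this

lemma rank_quotient_eq_of_lt (hV : ℵ₀ ≤ Module.rank F V) {S : Submodule F V}
    (hS : Module.rank F S < Module.rank F V) : Module.rank F (V ⧸ S) = Module.rank F V := by
  have h1 := Submodule.rank_quotient_add_rank S
  apply le_antisymm (rank_quotient_le _)
  by_contra hcon
  push Not at hcon
  have h2 := Cardinal.add_lt_of_lt hV hcon hS
  rw [h1] at h2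
  exact lt_irrefl _ h2

lemma rank_sup_lt (hV : ℵ₀ ≤ Module.rank F V) {S T : Submodule F V}
    (hS : Module.rank F S < Module.rank F V) (hT : Module.rank F T < Module.rank F V) :
    Module.rank F ↥(S ⊔ T) < Module.rank F V :=
  (Submodule.rank_add_le_rank_add_rank S T).trans_lt (Cardinal.add_lt_of_lt hV hS hT)

end Action

end Pool.Agent.Lib.MP_5cf805_al
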