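import Mathlib

set_option autoImplicit false

namespace Pool.Agent.Lib.MP_5cf805_al

universe u v

/-- Filters on the set of subspaces of `V`. -/
structure IsSubspaceFilter {F : Type u} {V : Type v} [Field F] [AddCommGroup V] [Module F V]
    (𝓕 : Set (Submodule F V)) : Prop where
  top_mem : ⊤ ∈ 𝓕
  bot_notMem : ⊥ ∉ 𝓕
  mem_of_le : ∀ U W : Submodule F V, U ∈ 𝓕 → U ≤ W → W ∈ 𝓕
  inf_mem : ∀ U W : Submodule F V, U ∈ 𝓕 → W ∈ 𝓕 → U ⊓ W ∈ 𝓕

/-- Maximal filters: filters that are contained in no other filter. -/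
def IsMaximalFilter {F : Type u} {V : Type v} [Field F] [AddCommGroup V] [Module F V]
    (𝓕 : Set (Submodule F V)) : Prop :=
  IsSubspaceFilter 𝓕 ∧ ∀ 𝓖 : Set (Submodule F V), IsSubspaceFilter 𝓖 → 𝓕 ⊆ 𝓖 → 𝓖 = 𝓕

/-- Ideals of the set of subspaces of `V`. -/
structure IsSubspaceIdeal {F : Type u} {V : Type v} [Field F] [AddCommGroup V] [Module F V]
    (𝓘 : Set (Submodule F V)) : Prop where
  bot_mem : ⊥ ∈ 𝓘
  top_notMem : ⊤ ∉ 𝓘
  mem_of_le : ∀ U W : Submodule F V, W ∈ 𝓘 → U ≤ W → U ∈ 𝓘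
  sup_mem : ∀ U W : Submodule F V, U ∈ 𝓘 → W ∈ 𝓘 → U ⊔ W ∈ 𝓘

/-- Maximal ideals: ideals that are contained in no other ideal. -/
def IsMaximalIdeal {F : Type u} {V : Type v} [Field F] [AddCommGroup V] [Module F V]
    (𝓘 : Set (Submodule F V)) : Prop :=
  IsSubspaceIdeal 𝓘 ∧ ∀ 𝓙 : Set (Submodule F V), IsSubspaceIdeal 𝓙 → 𝓘 ⊆ 𝓙 → 𝓙 = 𝓘

/-- The degree of transitivity of an action: the supremum of all `k ≥ 1` such that the group acts
transitively on ordered `k`-tuples of pairwise distinct points. -/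
noncomputable def transitivityDegree (G : Type*) (X : Type*) [Group G] [MulAction G X] : ℕ∞ :=
  ⨆ (k : ℕ) (_ : 1 ≤ k ∧ MulAction.IsMultiplyPretransitive G X k), (k : ℕ∞)

end Pool.Agent.Lib.MP_5cf805_al
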