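import Mathlib
import Pool.Agent.Lib.MP_5cf805_al.Common
import Pool.Agent.Lib.MP_5cf805_al.Defs

set_option autoImplicit false

namespace Pool.Agent.Lib.MP_5cf805_al.FilterProof

open Pointwise Cardinal Pool.Agent.Lib.MP_5cf805_al

universe u v

section Filters

variable {F : Type u} {V : Type v} [Field F] [AddCommGroup V] [Module F V]
  {𝓕 : Set (Submodule F V)}

lemma mem_smul_set {g : V ≃ₗ[F] V} {U : Submodule F V} : U ∈ g • 𝓕 ↔ g⁻¹ • U ∈ 𝓕 :=
  Set.mem_smul_set_iff_inv_smul_mem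

lemma _root_.Pool.Agent.Lib.MP_5cf805_al.IsSubspaceFilter.smul (h : IsSubspaceFilter 𝓕) (g : V ≃ₗ[F] V) :
    IsSubspaceFilter (g • 𝓕) where
  top_mem := by rw [mem_smul_set, smul_top]; exact h.top_mem
  bot_notMem := by rw [mem_smul_set, smul_bot]; exact h.bot_notMem
  mem_of_le := by
    intro U W hU hUW
    rw [mem_smul_set] at hU ⊢
    exact h.mem_of_le _ _ hU (smul_mono _ hUW)
  inf_mem := by
    intro U W hU hW
    rw [mem_smul_set] at hU hW ⊢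
    rw [smul_inf]
    exact h.inf_mem _ _ hU hW

lemma _root_.Pool.Agent.Lib.MP_5cf805_al.IsMaximalFilter.smul (h : IsMaximalFilter 𝓕) (g : V ≃ₗ[F] V) :
    IsMaximalFilter (g • 𝓕) := by
  refine ⟨h.1.smul g, fun 𝓖 h𝓖 hle => ?_⟩
  have h1 : 𝓕 ⊆ g⁻¹ • 𝓖 := by
    intro U hU
    rw [mem_smul_set, inv_inv]
    apply hle
    rw [mem_smul_set, inv_smul_smul]
    exact hU
  have h2 := h.2 _ (h𝓖.smul g⁻¹) h1
  rw [← h2, smul_inv_smul]

lemma _root_.Pool.Agent.Lib.MP_5cf805_al.IsMaximalFilter.exists_disjoint (h : IsMaximalFilter 𝓕) {U : Submodule F V}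
    (hU : U ∉ 𝓕) : ∃ W ∈ 𝓕, U ⊓ W = ⊥ := by
  by_contra hcon
  push Not at hcon
  set 𝓖 : Set (Submodule F V) := {X | ∃ W ∈ 𝓕, U ⊓ W ≤ X} with h𝓖
  have h1 : IsSubspaceFilter 𝓖 := by
    refine ⟨⟨⊤, h.1.top_mem, le_top⟩, ?_, ?_, ?_⟩
    · rintro ⟨W, hW, hle⟩
      exact hcon W hW (le_bot_iff.1 hle)
    · rintro X Y ⟨W, hW, hle⟩ hXY
      exact ⟨W, hW, hle.trans hXY⟩
    · rintro X Y ⟨W, hW, hle⟩ ⟨W', hW', hle'⟩
      refine ⟨W ⊓ W', h.1.inf_mem _ _ hW hW', le_inf ?_ ?_⟩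
      · exact (inf_le_inf_left U inf_le_left).trans hle
      · exact (inf_le_inf_left U inf_le_right).trans hle'
  have h2 : 𝓖 = 𝓕 := h.2 𝓖 h1 fun W hW => ⟨W, hW, inf_le_right⟩
  apply hU
  rw [← h2]
  exact ⟨⊤, h.1.top_mem, inf_le_left⟩

lemma _root_.Pool.Agent.Lib.MP_5cf805_al.IsSubspaceFilter.ne_of_inf_eq_bot {𝓐 𝓑 : Set (Submodule F V)} (h : IsSubspaceFilter 𝓐)
    {A B : Submodule F V} (hA : A ∈ 𝓐) (hB : B ∈ 𝓑) (hAB : A ⊓ B = ⊥) : 𝓐 ≠ 𝓑 := by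
  rintro rfl
  apply h.bot_notMem
  rw [← hAB]
  exact h.inf_mem _ _ hA hB

lemma exists_inf_eq_bot {𝓐 𝓑 : Set (Submodule F V)} (h𝓐 : IsMaximalFilter 𝓐)
    (h𝓑 : IsMaximalFilter 𝓑) (hne : 𝓐 ≠ 𝓑) : ∃ A ∈ 𝓐, ∃ B ∈ 𝓑, A ⊓ B = ⊥ := by
  have h1 : ∃ A ∈ 𝓐, A ∉ 𝓑 := by
    by_contra hcon
    push Not at hcon
    exact hne (h𝓐.2 𝓑 h𝓑.1 hcon).symm
  obtain ⟨A, hA, hAB⟩ := h1
  obtain ⟨B, hB, h2⟩ := h𝓑.exists_disjoint hAB
  exact ⟨A, hA, B, hB, h2⟩

lemma _root_.Pool.Agent.Lib.MP_5cf805_al.IsMaximalFilter.exists_codim (h : IsMaximalFilter 𝓕) (hV : ℵ₀ ≤ Module.rank F V) :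
    ∃ U ∈ 𝓕, Module.rank F (V ⧸ U) = Module.rank F V := by
  obtain ⟨A, B, hAB, hA, hB⟩ := exists_split hV
  by_cases hmem : A ∈ 𝓕
  · refine ⟨A, hmem, le_antisymm (rank_quotient_le _) ?_⟩
    rw [← hB]
    exact rank_le_rank_quotient hAB.inf_eq_bot
  · obtain ⟨W, hW, hAW⟩ := h.exists_disjoint hmem
    refine ⟨W, hW, le_antisymm (rank_quotient_le _) ?_⟩
    rw [← hA]
    exact rank_le_rank_quotient (by rw [inf_comm]; exact hAW)

/-- The collinearity relation. -/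
def Col (𝓐 𝓑 𝓒 : Set (Submodule F V)) : Prop := ∀ A ∈ 𝓐, ∀ B ∈ 𝓑, A ⊔ B ∈ 𝓒

lemma Col.smul {𝓐 𝓑 𝓒 : Set (Submodule F V)} (h : Col 𝓐 𝓑 𝓒) (g : V ≃ₗ[F] V) :
    Col (g • 𝓐) (g • 𝓑) (g • 𝓒) := by
  intro A hA B hB
  rw [mem_smul_set] at hA hB ⊢
  rw [smul_sup]
  exact h _ hA _ hB

/-! ### The translates -/

section Translates

variable (U : Submodule F V) (e : V ≃ₗ[F] (ℕ →₀ U) × V)

/-- Swap the copies `0` and `i`. -/
noncomputable def swp (i : ℕ) : V ≃ₗ[F] V :=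
  e ≪≫ₗ (LinearEquiv.prodCongr (Finsupp.domLCongr (Equiv.swap 0 i)) (LinearEquiv.refl F V)) ≪≫ₗ
    e.symm

/-- The shear adding copy `0` to copy `1`, on the level of finitely supported functions. -/
noncomputable def shr₀ : (ℕ →₀ U) ≃ₗ[F] (ℕ →₀ U) :=
  LinearEquiv.ofLinearMap
    (LinearMap.id + Finsupp.lsingle 1 ∘ₗ Finsupp.lapply 0)
    (LinearMap.id - Finsupp.lsingle 1 ∘ₗ Finsupp.lapply 0)
    (by
      apply LinearMap.ext
      intro x
      simp)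
    (by
      apply LinearMap.ext
      intro x
      simp)

/-- The shear. -/
noncomputable def shr : V ≃ₗ[F] V :=
  e ≪≫ₗ (LinearEquiv.prodCongr (shr₀ U) (LinearEquiv.refl F V)) ≪≫ₗ e.symm

variable {U e} (he : ∀ u : U, e u = (Finsupp.single 0 u, 0))

include he in
lemma swp_apply (i : ℕ) (u : U) : e (swp U e i u) = (Finsupp.single i u, 0) := by
  simp [swp, he]

include he in
lemma shr_apply (u : U) : e (shr U e u) = (Finsupp.single 0 u + Finsupp.single 1 u, 0) := by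
  simp [shr, shr₀, he]

include he in
lemma mem_swp {i : ℕ} {x : V} (hx : x ∈ swp U e i • U) :
    ∃ u : U, e x = (Finsupp.single i u, 0) := by
  rw [mem_smul_sub] at hx
  refine ⟨⟨_, hx⟩, ?_⟩
  rw [← swp_apply he]
  simp

include he in
lemma mem_shr {x : V} (hx : x ∈ shr U e • U) :
    ∃ u : U, e x = (Finsupp.single 0 u + Finsupp.single 1 u, 0) := by
  rw [mem_smul_sub] at hx
  refine ⟨⟨_, hx⟩, ?_⟩
  rw [← shr_apply he]
  simp

include he in
lemma mem_zero {x : V} (hx : x ∈ U) : ∃ u : U, e x = (Finsupp.single 0 u, 0) :=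
  ⟨⟨x, hx⟩, he ⟨x, hx⟩⟩

omit he in
lemma swp_zero : swp U e 0 = 1 := by
  apply LinearEquiv.ext
  intro x
  simp [swp, Finsupp.domLCongr]

include he in
lemma swp_inf {i j : ℕ} (hij : i ≠ j) : (swp U e i • U) ⊓ (swp U e j • U) = ⊥ := by
  rw [eq_bot_iff]
  rintro x ⟨hx1, hx2⟩
  obtain ⟨u, hu⟩ := mem_swp he hx1
  obtain ⟨w, hw⟩ := mem_swp he hx2
  rw [hu] at hw
  have h1 : Finsupp.single i u = Finsupp.single j w := congrArg Prod.fst hw
  have h2 := DFunLike.congr_fun h1 i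
  rw [Finsupp.single_eq_same, Finsupp.single_eq_of_ne hij] at h2
  rw [h2] at hu
  have h3 : e x = 0 := by rw [hu]; simp
  simpa using h3

include he in
lemma swp_shr_inf (i : ℕ) : (swp U e i • U) ⊓ (shr U e • U) = ⊥ := by
  rw [eq_bot_iff]
  rintro x ⟨hx1, hx2⟩
  obtain ⟨u, hu⟩ := mem_swp he hx1
  obtain ⟨w, hw⟩ := mem_shr he hx2
  have h0 : e x = 0 := by
    rw [hw] at hu
    have h1 : Finsupp.single 0 w + Finsupp.single 1 w = Finsupp.single i u := congrArg Prod.fst hu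
    have hw0 : w = 0 := by
      by_cases hi : i = 0
      · have h2 := DFunLike.congr_fun h1 1
        rw [hi] at h2
        simpa using h2
      · have h2 := DFunLike.congr_fun h1 0
        rw [Finsupp.add_apply, Finsupp.single_eq_same, Finsupp.single_eq_of_ne (by norm_num),
          Finsupp.single_eq_of_ne (by simpa using Ne.symm hi)] at h2
        simpa using h2
    rw [hw, hw0]; simp
  simpa using h0

include he in
lemma not_col : ((U ⊔ (swp U e 1 • U)) ⊓ (swp U e 2 • U)) = ⊥ := by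
  let K : Submodule F V :=
    { carrier := {x | (e x).1 2 = 0}
      add_mem' := by
        intro a b ha hb
        simp only [Set.mem_ofPred_eq] at ha hb ⊢
        simp [ha, hb]
      zero_mem' := by simp
      smul_mem' := by
        intro c a ha
        simp only [Set.mem_ofPred_eq] at ha ⊢
        simp [ha] }
  have hK : ∀ x, x ∈ K ↔ (e x).1 2 = 0 := fun x => Iff.rfl
  have h1 : U ⊔ (swp U e 1 • U) ≤ K := by
    apply sup_le
    · intro x hx
      obtain ⟨u, hu⟩ := mem_zero he hx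
      rw [hK, hu]; simp
    · intro x hx
      obtain ⟨u, hu⟩ := mem_swp he hx
      rw [hK, hu]; simp
  rw [eq_bot_iff]
  rintro x ⟨hx1, hx2⟩
  obtain ⟨u, hu⟩ := mem_swp he hx2
  have h2 := (hK x).1 (h1 hx1)
  rw [hu] at h2
  have h3 : u = 0 := by simpa using h2
  have h4 : e x = 0 := by rw [hu, h3]; simp
  simpa using h4

end Translates

/-- The action is not `3`-transitive, and the orbit is infinite. -/
lemma not_three (h : IsMaximalFilter 𝓕) (hV : ℵ₀ ≤ Module.rank F V) :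
    Infinite (MulAction.orbit (V ≃ₗ[F] V) 𝓕) ∧
    ¬ MulAction.IsMultiplyPretransitive (V ≃ₗ[F] V) (MulAction.orbit (V ≃ₗ[F] V) 𝓕) 3 := by
  obtain ⟨U, hU, hrank⟩ := h.exists_codim hV
  obtain ⟨e, he⟩ := exists_model U hV hrank
  have hmem : ∀ g : V ≃ₗ[F] V, g • U ∈ g • 𝓕 := fun g => Set.smul_mem_smul_set hU
  have hne : ∀ i j : ℕ, i ≠ j → swp U e i • 𝓕 ≠ swp U e j • 𝓕 := fun i j hij =>
    (h.1.smul _).ne_of_inf_eq_bot (hmem _) (hmem _) (swp_inf he hij)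
  have hne' : ∀ i : ℕ, swp U e i • 𝓕 ≠ shr U e • 𝓕 := fun i =>
    (h.1.smul _).ne_of_inf_eq_bot (hmem _) (hmem _) (swp_shr_inf he i)
  refine ⟨?_, ?_⟩
  · refine Infinite.of_injective
      (fun i : ℕ => (⟨swp U e i • 𝓕, MulAction.mem_orbit _ _⟩ : MulAction.orbit (V ≃ₗ[F] V) 𝓕)) ?_
    intro i j hij
    by_contra hcon
    exact hne i j hcon (congrArg Subtype.val hij)
  · intro h3
    rw [MulAction.isMultiplyPretransitive_iff] at h3
    let x : Fin 3 ↪ MulAction.orbit (V ≃ₗ[F] V) 𝓕 :=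
      ⟨fun i => ⟨swp U e i • 𝓕, MulAction.mem_orbit _ _⟩, by
        intro i j hij
        by_contra hcon
        exact hne i j (fun hc => hcon (Fin.ext hc)) (congrArg Subtype.val hij)⟩
    let yf : Fin 3 → MulAction.orbit (V ≃ₗ[F] V) 𝓕 :=
      ![⟨swp U e 0 • 𝓕, MulAction.mem_orbit _ _⟩, ⟨swp U e 1 • 𝓕, MulAction.mem_orbit _ _⟩,
        ⟨shr U e • 𝓕, MulAction.mem_orbit _ _⟩]
    have hyf : Function.Injective yf := by
      intro i j hij
      have hval : ((yf i : MulAction.orbit (V ≃ₗ[F] V) 𝓕) : Set (Submodule F V)) = yf j :=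
        congrArg Subtype.val hij
      fin_cases i <;> fin_cases j
      · rfl
      · exact absurd hval (hne 0 1 (by norm_num))
      · exact absurd hval (hne' 0)
      · exact absurd hval (hne 1 0 (by norm_num))
      · rfl
      · exact absurd hval (hne' 1)
      · exact absurd hval.symm (hne' 0)
      · exact absurd hval.symm (hne' 1)
      · rfl
    obtain ⟨g, hg⟩ := h3 ⟨yf, hyf⟩ x
    have hg0 : g • (swp U e 0 • 𝓕) = swp U e 0 • 𝓕 :=
      congrArg (fun z : Fin 3 ↪ MulAction.orbit (V ≃ₗ[F] V) 𝓕 => (z 0 : Set (Submodule F V))) hg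
    have hg1 : g • (swp U e 1 • 𝓕) = swp U e 1 • 𝓕 :=
      congrArg (fun z : Fin 3 ↪ MulAction.orbit (V ≃ₗ[F] V) 𝓕 => (z 1 : Set (Submodule F V))) hg
    have hg2 : g • (shr U e • 𝓕) = swp U e 2 • 𝓕 :=
      congrArg (fun z : Fin 3 ↪ MulAction.orbit (V ≃ₗ[F] V) 𝓕 => (z 2 : Set (Submodule F V))) hg
    have hs0 : swp U e 0 • 𝓕 = 𝓕 := by rw [swp_zero, one_smul]
    rw [hs0] at hg0
    -- the triple `(𝓕, swp 1 • 𝓕, shr • 𝓕)` is collinear
    have hcol : Col 𝓕 (swp U e 1 • 𝓕) (shr U e • 𝓕) := by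
      intro A hA B hB
      rw [mem_smul_set] at hB
      have hE : A ⊓ ((swp U e 1)⁻¹ • B) ⊓ U ∈ 𝓕 := h.1.inf_mem _ _ (h.1.inf_mem _ _ hA hB) hU
      have hE' : shr U e • (A ⊓ ((swp U e 1)⁻¹ • B) ⊓ U) ∈ shr U e • 𝓕 :=
        Set.smul_mem_smul_set hE
      refine (h.1.smul _).mem_of_le _ _ hE' ?_
      intro x hx
      rw [mem_smul_sub] at hx
      obtain ⟨⟨h1, h2⟩, h3'⟩ := hx
      set y := (shr U e).symm x with hy
      have hxy : x = shr U e y := by simp [hy]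
      have h4 : swp U e 1 y ∈ B := by
        have := smul_mem_sub (swp U e 1) _ h2
        rwa [smul_inv_smul] at this
      have h5 : x = y + swp U e 1 y := by
        apply e.injective
        rw [hxy, map_add]
        have e1 := shr_apply he ⟨y, h3'⟩
        have e2 := swp_apply he 1 ⟨y, h3'⟩
        have e3 := he ⟨y, h3'⟩
        simp only at e1 e2 e3
        rw [e1, e2, e3]
        simp
      rw [h5]
      exact Submodule.add_mem_sup h1 h4
    have hcol' := hcol.smul g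
    rw [hg0, hg1, hg2] at hcol'
    have h6 := hcol' U hU (swp U e 1 • U) (hmem _)
    have h7 := (h.1.smul (swp U e 2)).inf_mem _ _ h6 (hmem _)
    rw [not_col he] at h7
    exact (h.1.smul (swp U e 2)).bot_notMem h7


/-- Halving: inside a member of full dimension there is a smaller member missing a subspace of
full dimension. -/
lemma _root_.Pool.Agent.Lib.MP_5cf805_al.IsMaximalFilter.exists_half (h : IsMaximalFilter 𝓕) (hV : ℵ₀ ≤ Module.rank F V)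
    {A : Submodule F V} (hA : A ∈ 𝓕) (hr : Module.rank F A = Module.rank F V) :
    ∃ A' ∈ 𝓕, ∃ D : Submodule F V, A' ≤ A ∧ D ≤ A ∧ A' ⊓ D = ⊥ ∧
      Module.rank F D = Module.rank F V := by
  obtain ⟨X, Y, hXY, hX, hY⟩ := exists_split (F := F) (V := A) (by rw [hr]; exact hV)
  have hinj : Function.Injective A.subtype := A.injective_subtype
  have hdisj : X.map A.subtype ⊓ Y.map A.subtype = ⊥ := by
    rw [← Submodule.map_inf _ hinj, hXY.inf_eq_bot, Submodule.map_bot]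
  have hX' : Module.rank F ↥(X.map A.subtype) = Module.rank F V := by
    rw [rank_map_eq hinj, hX, hr]
  have hY' : Module.rank F ↥(Y.map A.subtype) = Module.rank F V := by
    rw [rank_map_eq hinj, hY, hr]
  by_cases hmem : X.map A.subtype ∈ 𝓕
  · exact ⟨_, hmem, Y.map A.subtype, Submodule.map_subtype_le _ _, Submodule.map_subtype_le _ _,
      hdisj, hY'⟩
  · obtain ⟨W, hW, hXW⟩ := h.exists_disjoint hmem
    refine ⟨W ⊓ A, h.1.inf_mem _ _ hW hA, X.map A.subtype, inf_le_right,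
      Submodule.map_subtype_le _ _, ?_, hX'⟩
    rw [eq_bot_iff, ← hXW]
    exact le_inf inf_le_right (inf_le_left.trans inf_le_left)

/-- A `g` that agrees with `p` on a member of `𝓐` translates `𝓐` like `p` does. -/
lemma smul_eq_smul {𝓐 : Set (Submodule F V)} (h : IsMaximalFilter 𝓐) {g p : V ≃ₗ[F] V}
    {A : Submodule F V} (hA : A ∈ 𝓐) (hgp : ∀ x ∈ A, g x = p x) : g • 𝓐 = p • 𝓐 := by
  refine ((h.smul g).2 (p • 𝓐) (h.smul p).1 ?_).symm
  intro B hB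
  rw [mem_smul_set] at hB
  have h1 : p • ((g⁻¹ • B) ⊓ A) ∈ p • 𝓐 := Set.smul_mem_smul_set (h.1.inf_mem _ _ hB hA)
  refine (h.smul p).1.mem_of_le _ _ h1 ?_
  intro x hx
  rw [mem_smul_sub] at hx
  obtain ⟨hx1, hx2⟩ := hx
  have h2 : g (p.symm x) ∈ B := by
    have := smul_mem_sub g _ hx1
    rwa [smul_inv_smul] at this
  rw [hgp _ hx2] at h2
  simpa using h2

lemma two_transitive (h : IsMaximalFilter 𝓕) (hV : ℵ₀ ≤ Module.rank F V) :
    MulAction.IsMultiplyPretransitive (V ≃ₗ[F] V) (MulAction.orbit (V ≃ₗ[F] V) 𝓕) 2 := by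
  rw [MulAction.is_two_pretransitive_iff]
  rintro ⟨_, ga, rfl⟩ ⟨_, gb, rfl⟩ ⟨_, gc, rfl⟩ ⟨_, gd, rfl⟩ hab hcd
  simp only at hab hcd
  have hab' : ga • 𝓕 ≠ gb • 𝓕 := fun hc => hab (Subtype.ext hc)
  have hcd' : gc • 𝓕 ≠ gd • 𝓕 := fun hc => hcd (Subtype.ext hc)
  obtain ⟨A₀, hA₀, B₀, hB₀, hAB₀⟩ := exists_inf_eq_bot (h.smul ga) (h.smul gb) hab'
  obtain ⟨C₀, hC₀, D₀, hD₀, hCD₀⟩ := exists_inf_eq_bot (h.smul gc) (h.smul gd) hcd'
  set p : V ≃ₗ[F] V := gc * ga⁻¹ with hp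
  set q : V ≃ₗ[F] V := gd * gb⁻¹ with hq
  have hpa : p • (ga • 𝓕) = gc • 𝓕 := by rw [hp, smul_smul, inv_mul_cancel_right]
  have hqb : q • (gb • 𝓕) = gd • 𝓕 := by rw [hq, smul_smul, inv_mul_cancel_right]
  have hA₁ : A₀ ⊓ (p⁻¹ • C₀) ∈ ga • 𝓕 := by
    refine (h.1.smul ga).inf_mem _ _ hA₀ ?_
    rw [← mem_smul_set, hpa]
    exact hC₀
  have hB₁ : B₀ ⊓ (q⁻¹ • D₀) ∈ gb • 𝓕 := by
    refine (h.1.smul gb).inf_mem _ _ hB₀ ?_
    rw [← mem_smul_set, hqb]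
    exact hD₀
  set A₁ := A₀ ⊓ (p⁻¹ • C₀) with hA₁def
  set B₁ := B₀ ⊓ (q⁻¹ • D₀) with hB₁def
  have hAB₁ : A₁ ⊓ B₁ = ⊥ := by
    rw [eq_bot_iff, ← hAB₀]
    exact inf_le_inf inf_le_left inf_le_left
  have hpA₁ : p • A₁ ≤ C₀ := by rw [smul_le_iff]; exact inf_le_right
  have hqB₁ : q • B₁ ≤ D₀ := by rw [smul_le_iff]; exact inf_le_right
  have hpq₁ : (p • A₁) ⊓ (q • B₁) = ⊥ := by
    rw [eq_bot_iff, ← hCD₀]
    exact inf_le_inf hpA₁ hqB₁
  -- shrink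
  have hshrink : ∃ A₂ ∈ ga • 𝓕, ∃ B₂ ∈ gb • 𝓕, A₂ ≤ A₁ ∧ B₂ ≤ B₁ ∧
      Module.rank F (V ⧸ (A₂ ⊔ B₂)) = Module.rank F V ∧
      Module.rank F (V ⧸ ((p • A₂) ⊔ (q • B₂))) = Module.rank F V := by
    by_cases hsmall : ∃ U ∈ 𝓕, Module.rank F U < Module.rank F V
    · obtain ⟨U, hU, hUr⟩ := hsmall
      have h1 : Module.rank F ↥(A₁ ⊓ (ga • U)) < Module.rank F V := by
        refine (Submodule.rank_mono (inf_le_right : A₁ ⊓ (ga • U) ≤ ga • U)).trans_lt ?_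
        rw [rank_smul]; exact hUr
      have h2 : Module.rank F ↥(B₁ ⊓ (gb • U)) < Module.rank F V := by
        refine (Submodule.rank_mono (inf_le_right : B₁ ⊓ (gb • U) ≤ gb • U)).trans_lt ?_
        rw [rank_smul]; exact hUr
      refine ⟨A₁ ⊓ (ga • U), (h.1.smul ga).inf_mem _ _ hA₁ (Set.smul_mem_smul_set hU),
        B₁ ⊓ (gb • U), (h.1.smul gb).inf_mem _ _ hB₁ (Set.smul_mem_smul_set hU),
        inf_le_left, inf_le_left, ?_, ?_⟩
      · exact rank_quotient_eq_of_lt hV (rank_sup_lt hV h1 h2)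
      · refine rank_quotient_eq_of_lt hV (rank_sup_lt hV ?_ ?_)
        · rw [rank_smul]; exact h1
        · rw [rank_smul]; exact h2
    · push Not at hsmall
      have hr : Module.rank F A₁ = Module.rank F V := by
        apply le_antisymm (Submodule.rank_le _)
        have h1 : ga⁻¹ • A₁ ∈ 𝓕 := mem_smul_set.1 hA₁
        have h2 := hsmall _ h1
        rwa [rank_smul] at h2
      obtain ⟨A₂, hA₂, D, hA₂A₁, hDA₁, hA₂D, hD⟩ := (h.smul ga).exists_half hV hA₁ hr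
      refine ⟨A₂, hA₂, B₁, hB₁, hA₂A₁, le_rfl, ?_, ?_⟩
      · apply le_antisymm (rank_quotient_le _)
        rw [← hD]
        exact rank_le_rank_quotient (sup_inf_eq_bot hA₂A₁ hDA₁ hA₂D hAB₁)
      · apply le_antisymm (rank_quotient_le _)
        rw [← hD, ← rank_smul p D]
        refine rank_le_rank_quotient (sup_inf_eq_bot (smul_mono p hA₂A₁) (smul_mono p hDA₁) ?_ hpq₁)
        rw [← smul_inf, hA₂D, smul_bot]
  obtain ⟨A₂, hA₂, B₂, hB₂, hle1, hle2, hr1, hr2⟩ := hshrink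
  have hAB₂ : A₂ ⊓ B₂ = ⊥ := by
    rw [eq_bot_iff, ← hAB₁]
    exact inf_le_inf hle1 hle2
  have hpq₂ : (p • A₂) ⊓ (q • B₂) = ⊥ := by
    rw [eq_bot_iff, ← hpq₁]
    exact inf_le_inf (smul_mono p hle1) (smul_mono q hle2)
  obtain ⟨g, hg1, hg2⟩ := exists_glue p q hAB₂ hpq₂ hr1 hr2
  refine ⟨g, Subtype.ext ?_, Subtype.ext ?_⟩
  · show g • (ga • 𝓕) = gc • 𝓕
    rw [← hpa]
    exact smul_eq_smul (h.smul ga) hA₂ hg1
  · show g • (gb • 𝓕) = gd • 𝓕
    rw [← hqb]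
    exact smul_eq_smul (h.smul gb) hB₂ hg2

end Filters

theorem main {F : Type u} {V : Type v} [Field F] [AddCommGroup V] [Module F V]
    (hV : ℵ₀ ≤ Module.rank F V) (𝓕 : Set (Submodule F V)) (h𝓕 : IsMaximalFilter 𝓕) :
    transitivityDegree (V ≃ₗ[F] V) (MulAction.orbit (V ≃ₗ[F] V) 𝓕) = 2 := by
  obtain ⟨hinf, hnot⟩ := not_three h𝓕 hV
  apply le_antisymm
  · refine iSup₂_le fun k hk => ?_
    by_contra hcon
    push Not at hcon
    have h3 : 3 ≤ k := by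
      have : (2 : ℕ) < k := by exact_mod_cast hcon
      omega
    apply hnot
    have := hk.2
    refine MulAction.isMultiplyPretransitive_of_le' h3 ?_
    rw [ENat.card_eq_top_of_infinite]
    exact le_top
  · refine le_iSup₂_of_le 2 ⟨by norm_num, two_transitive h𝓕 hV⟩ ?_
    norm_num

end Pool.Agent.Lib.MP_5cf805_al.FilterProof
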