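import Mathlib
import Pool.Agent.Lib.MP_5cf805_al.Common
import Pool.Agent.Lib.MP_5cf805_al.Defs

set_option autoImplicit false

namespace Pool.Agent.Lib.MP_5cf805_al.IdealProof

open Pointwise Cardinal Pool.Agent.Lib.MP_5cf805_al

universe u v

section Ideals

variable {F : Type u} {V : Type v} [Field F] [AddCommGroup V] [Module F V]
  {𝓘 : Set (Submodule F V)}

lemma mem_smul_set {g : V ≃ₗ[F] V} {U : Submodule F V} : U ∈ g • 𝓘 ↔ g⁻¹ • U ∈ 𝓘 :=
  Set.mem_smul_set_iff_inv_smul_mem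

lemma _root_.Pool.Agent.Lib.MP_5cf805_al.IsSubspaceIdeal.smul (h : IsSubspaceIdeal 𝓘) (g : V ≃ₗ[F] V) :
    IsSubspaceIdeal (g • 𝓘) where
  bot_mem := by rw [mem_smul_set, smul_bot]; exact h.bot_mem
  top_notMem := by rw [mem_smul_set, smul_top]; exact h.top_notMem
  mem_of_le := by
    intro U W hW hUW
    rw [mem_smul_set] at hW ⊢
    exact h.mem_of_le _ _ hW (smul_mono _ hUW)
  sup_mem := by
    intro U W hU hW
    rw [mem_smul_set] at hU hW ⊢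
    rw [smul_sup]
    exact h.sup_mem _ _ hU hW

lemma _root_.Pool.Agent.Lib.MP_5cf805_al.IsMaximalIdeal.smul (h : IsMaximalIdeal 𝓘) (g : V ≃ₗ[F] V) :
    IsMaximalIdeal (g • 𝓘) := by
  refine ⟨h.1.smul g, fun 𝓙 h𝓙 hle => ?_⟩
  have h1 : 𝓘 ⊆ g⁻¹ • 𝓙 := by
    intro U hU
    rw [mem_smul_set, inv_inv]
    apply hle
    rw [mem_smul_set, inv_smul_smul]
    exact hU
  have h2 := h.2 _ (h𝓙.smul g⁻¹) h1
  rw [← h2, smul_inv_smul]

lemma _root_.Pool.Agent.Lib.MP_5cf805_al.IsMaximalIdeal.exists_codisjoint (h : IsMaximalIdeal 𝓘) {U : Submodule F V}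
    (hU : U ∉ 𝓘) : ∃ W ∈ 𝓘, U ⊔ W = ⊤ := by
  by_contra hcon
  push Not at hcon
  set 𝓙 : Set (Submodule F V) := {X | ∃ W ∈ 𝓘, X ≤ U ⊔ W} with h𝓙
  have h1 : IsSubspaceIdeal 𝓙 := by
    refine ⟨⟨⊥, h.1.bot_mem, bot_le⟩, ?_, ?_, ?_⟩
    · rintro ⟨W, hW, hle⟩
      exact hcon W hW (top_le_iff.1 hle)
    · rintro X Y ⟨W, hW, hle⟩ hXY
      exact ⟨W, hW, hXY.trans hle⟩
    · rintro X Y ⟨W, hW, hle⟩ ⟨W', hW', hle'⟩
      refine ⟨W ⊔ W', h.1.sup_mem _ _ hW hW', sup_le ?_ ?_⟩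
      · exact hle.trans (sup_le_sup_left le_sup_left U)
      · exact hle'.trans (sup_le_sup_left le_sup_right U)
  have h2 : 𝓙 = 𝓘 := h.2 𝓙 h1 fun W hW => ⟨W, hW, le_sup_right⟩
  apply hU
  rw [← h2]
  exact ⟨⊥, h.1.bot_mem, le_sup_left⟩

lemma _root_.Pool.Agent.Lib.MP_5cf805_al.IsSubspaceIdeal.ne_of_sup_eq_top {𝓐 𝓑 : Set (Submodule F V)} (h : IsSubspaceIdeal 𝓐)
    {A B : Submodule F V} (hA : A ∈ 𝓐) (hB : B ∈ 𝓑) (hAB : A ⊔ B = ⊤) : 𝓐 ≠ 𝓑 := by
  rintro rfl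
  apply h.top_notMem
  rw [← hAB]
  exact h.sup_mem _ _ hA hB

lemma exists_sup_eq_top {𝓐 𝓑 : Set (Submodule F V)} (h𝓐 : IsMaximalIdeal 𝓐)
    (h𝓑 : IsMaximalIdeal 𝓑) (hne : 𝓐 ≠ 𝓑) : ∃ A ∈ 𝓐, ∃ B ∈ 𝓑, A ⊔ B = ⊤ := by
  have h1 : ∃ A ∈ 𝓐, A ∉ 𝓑 := by
    by_contra hcon
    push Not at hcon
    exact hne (h𝓐.2 𝓑 h𝓑.1 hcon).symm
  obtain ⟨A, hA, hAB⟩ := h1
  obtain ⟨B, hB, h2⟩ := h𝓑.exists_codisjoint hAB
  exact ⟨A, hA, B, hB, h2⟩

/-- If `A ⊔ B = ⊤` then the codimension of `A` is at most the dimension of `B`. -/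
lemma rank_quotient_le_rank {A B : Submodule F V} (h : A ⊔ B = ⊤) :
    Module.rank F (V ⧸ A) ≤ Module.rank F B := by
  refine LinearMap.rank_le_of_surjective (A.mkQ ∘ₗ B.subtype) ?_
  intro x
  obtain ⟨x, rfl⟩ := A.mkQ_surjective x
  have hx : x ∈ A ⊔ B := by rw [h]; trivial
  obtain ⟨a, ha, b, hb, rfl⟩ := Submodule.mem_sup.1 hx
  refine ⟨⟨b, hb⟩, ?_⟩
  have h1 : A.mkQ a = 0 := by simpa using ha
  show A.mkQ b = A.mkQ (a + b)
  rw [map_add, h1, zero_add]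

lemma inf_sup_eq_top {A A₁ B D : Submodule F V} (hA : A₁ ≤ A) (hD : A₁ ≤ D) (hAD : A ⊔ D = ⊤)
    (hB : A₁ ⊔ B = ⊤) : (A ⊓ B) ⊔ D = ⊤ := by
  rw [eq_top_iff]
  intro x _
  have hx : x ∈ A ⊔ D := by rw [hAD]; trivial
  obtain ⟨a, ha, d, hd, rfl⟩ := Submodule.mem_sup.1 hx
  have ha' : a ∈ A₁ ⊔ B := by rw [hB]; trivial
  obtain ⟨a₁, ha₁, b, hb, rfl⟩ := Submodule.mem_sup.1 ha'
  have hb' : b ∈ A := by
    have := A.sub_mem ha (hA ha₁)
    simpa using this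
  have h1 : a₁ + b + d = b + (a₁ + d) := by abel
  rw [h1]
  exact Submodule.add_mem_sup ⟨hb', hb⟩ (D.add_mem (hD ha₁) hd)

lemma _root_.Pool.Agent.Lib.MP_5cf805_al.IsMaximalIdeal.exists_dim (h : IsMaximalIdeal 𝓘) (hV : ℵ₀ ≤ Module.rank F V) :
    ∃ U ∈ 𝓘, Module.rank F U = Module.rank F V := by
  obtain ⟨A, B, hAB, hA, hB⟩ := exists_split hV
  by_cases hmem : A ∈ 𝓘
  · exact ⟨A, hmem, hA⟩
  · obtain ⟨W, hW, hAW⟩ := h.exists_codisjoint hmem
    refine ⟨W, hW, le_antisymm (Submodule.rank_le _) ?_⟩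
    rw [← hB]
    exact (rank_le_rank_quotient hAB.inf_eq_bot).trans (rank_quotient_le_rank hAW)

/-- The coaxiality relation. -/
def Coax (𝓐 𝓑 𝓒 : Set (Submodule F V)) : Prop := ∀ A ∈ 𝓐, ∀ B ∈ 𝓑, A ⊓ B ∈ 𝓒

lemma Coax.smul {𝓐 𝓑 𝓒 : Set (Submodule F V)} (h : Coax 𝓐 𝓑 𝓒) (g : V ≃ₗ[F] V) :
    Coax (g • 𝓐) (g • 𝓑) (g • 𝓒) := by
  intro A hA B hB
  rw [mem_smul_set] at hA hB ⊢
  rw [smul_inf]
  exact h _ hA _ hB

/-! ### The translates -/

section Translates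

variable (Q : Submodule F V) (e : V ≃ₗ[F] (ℕ →₀ Q) × V)

/-- Swap the copies `0` and `i`. -/
noncomputable def swp (i : ℕ) : V ≃ₗ[F] V :=
  e ≪≫ₗ (LinearEquiv.prodCongr (Finsupp.domLCongr (Equiv.swap 0 i)) (LinearEquiv.refl F V)) ≪≫ₗ
    e.symm

/-- The shear subtracting coordinate `1` from coordinate `0`. -/
noncomputable def shr₀ : (ℕ →₀ Q) ≃ₗ[F] (ℕ →₀ Q) :=
  LinearEquiv.ofLinearMap
    (LinearMap.id - Finsupp.lsingle 0 ∘ₗ Finsupp.lapply 1)
    (LinearMap.id + Finsupp.lsingle 0 ∘ₗ Finsupp.lapply 1)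
    (by
      apply LinearMap.ext
      intro x
      simp)
    (by
      apply LinearMap.ext
      intro x
      simp)

/-- The shear. -/
noncomputable def shr : V ≃ₗ[F] V :=
  e ≪≫ₗ (LinearEquiv.prodCongr (shr₀ Q) (LinearEquiv.refl F V)) ≪≫ₗ e.symm

lemma swp_coord (i j : ℕ) (x : V) : (e (swp Q e i x)).1 j = (e x).1 (Equiv.swap 0 i j) := by
  simp [swp, Finsupp.domLCongr, Finsupp.equivMapDomain_apply]

lemma swp_symm_coord (i j : ℕ) (x : V) :
    (e ((swp Q e i).symm x)).1 j = (e x).1 (Equiv.swap 0 i j) := by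
  simp [swp, Finsupp.domLCongr, Finsupp.equivMapDomain_apply]

lemma shr_symm_coord (x : V) : (e ((shr Q e).symm x)).1 0 = (e x).1 0 + (e x).1 1 := by
  simp [shr, shr₀]

lemma swp_zero : swp Q e 0 = 1 := by
  apply LinearEquiv.ext
  intro x
  simp [swp, Finsupp.domLCongr]

variable {Q e} {U : Submodule F V} (hU : ∀ x, x ∈ U ↔ (e x).1 0 = 0)

include hU in
lemma mem_swp (i : ℕ) (x : V) : x ∈ swp Q e i • U ↔ (e x).1 i = 0 := by
  rw [mem_smul_sub, hU, swp_symm_coord, Equiv.swap_apply_left]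

include hU in
lemma mem_shr (x : V) : x ∈ shr Q e • U ↔ (e x).1 0 + (e x).1 1 = 0 := by
  rw [mem_smul_sub, hU, shr_symm_coord]

include hU in
lemma swp_sup {i j : ℕ} (hij : i ≠ j) : (swp Q e i • U) ⊔ (swp Q e j • U) = ⊤ := by
  rw [eq_top_iff]
  intro x _
  have h1 : e.symm (Finsupp.single j ((e x).1 j), 0) ∈ swp Q e i • U := by
    rw [mem_swp hU]
    simp [Finsupp.single_eq_of_ne hij]
  have h2 : x - e.symm (Finsupp.single j ((e x).1 j), 0) ∈ swp Q e j • U := by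
    rw [mem_swp hU]
    simp
  have h3 := Submodule.add_mem_sup h1 h2
  simpa using h3

include hU in
lemma shr_sup (i : ℕ) : (swp Q e i • U) ⊔ (shr Q e • U) = ⊤ := by
  rw [eq_top_iff]
  intro x _
  -- choose a coordinate `j` in `{0, 1}` different from `i`
  obtain ⟨j, hj, hji⟩ : ∃ j : ℕ, (j = 0 ∨ j = 1) ∧ i ≠ j := by
    by_cases hi : i = 0
    · exact ⟨1, Or.inr rfl, by omega⟩
    · exact ⟨0, Or.inl rfl, hi⟩
  have h1 : e.symm (Finsupp.single j ((e x).1 0 + (e x).1 1), 0) ∈ swp Q e i • U := by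
    rw [mem_swp hU]
    simp [Finsupp.single_eq_of_ne hji]
  have h2 : x - e.symm (Finsupp.single j ((e x).1 0 + (e x).1 1), 0) ∈ shr Q e • U := by
    rw [mem_shr hU]
    rcases hj with rfl | rfl
    · simp
    · simp
  have h3 := Submodule.add_mem_sup h1 h2
  simpa using h3

include hU in
lemma not_coax : ((U ⊓ (swp Q e 1 • U)) ⊔ (swp Q e 2 • U)) = ⊤ := by
  rw [eq_top_iff]
  intro x _
  have h1 : e.symm (Finsupp.single 2 ((e x).1 2), 0) ∈ U ⊓ (swp Q e 1 • U) := by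
    refine ⟨?_, ?_⟩
    · rw [SetLike.mem_coe, hU]; simp
    · rw [SetLike.mem_coe, mem_swp hU]; simp
  have h2 : x - e.symm (Finsupp.single 2 ((e x).1 2), 0) ∈ swp Q e 2 • U := by
    rw [mem_swp hU]
    simp
  have h3 := Submodule.add_mem_sup h1 h2
  simpa using h3

end Translates

/-- The action is not `3`-transitive, and the orbit is infinite. -/
lemma not_three (h : IsMaximalIdeal 𝓘) (hV : ℵ₀ ≤ Module.rank F V) :
    Infinite (MulAction.orbit (V ≃ₗ[F] V) 𝓘) ∧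
    ¬ MulAction.IsMultiplyPretransitive (V ≃ₗ[F] V) (MulAction.orbit (V ≃ₗ[F] V) 𝓘) 3 := by
  obtain ⟨U, hU, hrank⟩ := h.exists_dim hV
  obtain ⟨Q, hQ⟩ := U.exists_isCompl
  let p : V →ₗ[F] Q := Submodule.projectionOnto Q U hQ.symm
  have hpker : LinearMap.ker p = U := Submodule.ker_projectionOnto hQ.symm
  have hpsurj : Function.Surjective p :=
    LinearMap.range_eq_top.1 (Submodule.range_projectionOnto hQ.symm)
  obtain ⟨e, he⟩ := exists_model' Q hV p hpsurj (by rw [hpker, hrank])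
  have hUe : ∀ x, x ∈ U ↔ (e x).1 0 = 0 := by
    intro x
    rw [he, ← LinearMap.mem_ker, hpker]
  have hmem : ∀ g : V ≃ₗ[F] V, g • U ∈ g • 𝓘 := fun g => Set.smul_mem_smul_set hU
  have hne : ∀ i j : ℕ, i ≠ j → swp Q e i • 𝓘 ≠ swp Q e j • 𝓘 := fun i j hij =>
    (h.1.smul _).ne_of_sup_eq_top (hmem _) (hmem _) (swp_sup hUe hij)
  have hne' : ∀ i : ℕ, swp Q e i • 𝓘 ≠ shr Q e • 𝓘 := fun i =>
    (h.1.smul _).ne_of_sup_eq_top (hmem _) (hmem _) (shr_sup hUe i)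
  refine ⟨?_, ?_⟩
  · refine Infinite.of_injective
      (fun i : ℕ => (⟨swp Q e i • 𝓘, MulAction.mem_orbit _ _⟩ : MulAction.orbit (V ≃ₗ[F] V) 𝓘)) ?_
    intro i j hij
    by_contra hcon
    exact hne i j hcon (congrArg Subtype.val hij)
  · intro h3
    rw [MulAction.isMultiplyPretransitive_iff] at h3
    let x : Fin 3 ↪ MulAction.orbit (V ≃ₗ[F] V) 𝓘 :=
      ⟨fun i => ⟨swp Q e i • 𝓘, MulAction.mem_orbit _ _⟩, by
        intro i j hij
        by_contra hcon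
        exact hne i j (fun hc => hcon (Fin.ext hc)) (congrArg Subtype.val hij)⟩
    let yf : Fin 3 → MulAction.orbit (V ≃ₗ[F] V) 𝓘 :=
      ![⟨swp Q e 0 • 𝓘, MulAction.mem_orbit _ _⟩, ⟨swp Q e 1 • 𝓘, MulAction.mem_orbit _ _⟩,
        ⟨shr Q e • 𝓘, MulAction.mem_orbit _ _⟩]
    have hyf : Function.Injective yf := by
      intro i j hij
      have hval : ((yf i : MulAction.orbit (V ≃ₗ[F] V) 𝓘) : Set (Submodule F V)) = yf j :=
        congrArg Subtype.val hij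
      fin_cases i <;> fin_cases j
      · rfl
      · exact absurd hval (hne 0 1 (by norm_num))
      · exact absurd hval (hne' 0)
      · exact absurd hval (hne 1 0 (by norm_num))
      · rfl
      · exact absurd hval (hne' 1)
      · exact absurd hval.symm (hne' 0)
      · exact absurd hval.symm (hne' 1)
      · rfl
    obtain ⟨g, hg⟩ := h3 ⟨yf, hyf⟩ x
    have hg0 : g • (swp Q e 0 • 𝓘) = swp Q e 0 • 𝓘 :=
      congrArg (fun z : Fin 3 ↪ MulAction.orbit (V ≃ₗ[F] V) 𝓘 => (z 0 : Set (Submodule F V))) hg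
    have hg1 : g • (swp Q e 1 • 𝓘) = swp Q e 1 • 𝓘 :=
      congrArg (fun z : Fin 3 ↪ MulAction.orbit (V ≃ₗ[F] V) 𝓘 => (z 1 : Set (Submodule F V))) hg
    have hg2 : g • (shr Q e • 𝓘) = swp Q e 2 • 𝓘 :=
      congrArg (fun z : Fin 3 ↪ MulAction.orbit (V ≃ₗ[F] V) 𝓘 => (z 2 : Set (Submodule F V))) hg
    have hs0 : swp Q e 0 • 𝓘 = 𝓘 := by rw [swp_zero, one_smul]
    rw [hs0] at hg0
    -- the triple `(𝓘, swp 1 • 𝓘, shr • 𝓘)` is coaxial
    have hcoax : Coax 𝓘 (swp Q e 1 • 𝓘) (shr Q e • 𝓘) := by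
      intro A hA B hB
      rw [mem_smul_set] at hB ⊢
      have hE : A ⊔ ((swp Q e 1)⁻¹ • B) ⊔ U ∈ 𝓘 := h.1.sup_mem _ _ (h.1.sup_mem _ _ hA hB) hU
      refine h.1.mem_of_le _ _ hE ?_
      intro y hy
      rw [mem_smul_sub] at hy
      obtain ⟨h1, h2⟩ := hy
      have hinv : ((shr Q e)⁻¹ : V ≃ₗ[F] V).symm y = shr Q e y := rfl
      rw [hinv] at h1 h2
      set x := shr Q e y with hx
      have hyx : y = (shr Q e).symm x := by simp [hx]
      have h4 : (swp Q e 1)⁻¹ x ∈ (swp Q e 1)⁻¹ • B := smul_mem_sub _ _ h2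
      have hinv' : (swp Q e 1)⁻¹ x = (swp Q e 1).symm x := rfl
      rw [hinv'] at h4
      have h5 : y - x - (swp Q e 1).symm x ∈ U := by
        rw [hUe, map_sub, map_sub, Prod.fst_sub, Prod.fst_sub, Finsupp.sub_apply,
          Finsupp.sub_apply, swp_symm_coord, Equiv.swap_apply_left, hyx, shr_symm_coord]
        simp
      have h6 : y = x + (swp Q e 1).symm x + (y - x - (swp Q e 1).symm x) := by abel
      rw [h6]
      exact Submodule.add_mem_sup (Submodule.add_mem_sup h1 h4) h5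
    have hcoax' := hcoax.smul g
    rw [hg0, hg1, hg2] at hcoax'
    have h6 := hcoax' U hU (swp Q e 1 • U) (hmem _)
    have h7 := (h.1.smul (swp Q e 2)).sup_mem _ _ h6 (hmem _)
    rw [not_coax hUe] at h7
    exact (h.1.smul (swp Q e 2)).top_notMem h7


/-- Halving: above a member of full codimension there is a bigger member that together with a
subspace of full codimension spans everything. -/
lemma _root_.Pool.Agent.Lib.MP_5cf805_al.IsMaximalIdeal.exists_half (h : IsMaximalIdeal 𝓘) (hV : ℵ₀ ≤ Module.rank F V)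
    {A : Submodule F V} (hA : A ∈ 𝓘) (hr : Module.rank F (V ⧸ A) = Module.rank F V) :
    ∃ A' ∈ 𝓘, ∃ D : Submodule F V, A ≤ A' ∧ A ≤ D ∧ A' ⊔ D = ⊤ ∧
      Module.rank F (V ⧸ D) = Module.rank F V := by
  obtain ⟨X, Y, hXY, hX, hY⟩ := exists_split (F := F) (V := V ⧸ A) (by rw [hr]; exact hV)
  have hsup : X.comap A.mkQ ⊔ Y.comap A.mkQ = ⊤ := by
    rw [eq_top_iff]
    intro x _
    have hx : A.mkQ x ∈ X ⊔ Y := by rw [hXY.sup_eq_top]; trivial
    obtain ⟨a, ha, b, hb, hab⟩ := Submodule.mem_sup.1 hx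
    obtain ⟨a, rfl⟩ := A.mkQ_surjective a
    have h1 : x = a + (x - a) := by abel
    rw [h1]
    refine Submodule.add_mem_sup ha ?_
    show A.mkQ (x - a) ∈ Y
    rw [map_sub, ← hab, add_sub_cancel_left]
    exact hb
  have hleX : A ≤ X.comap A.mkQ := by
    intro x hx
    have h0 : A.mkQ x = 0 := by simpa using hx
    show A.mkQ x ∈ X
    rw [h0]; exact X.zero_mem
  have hleY : A ≤ Y.comap A.mkQ := by
    intro x hx
    have h0 : A.mkQ x = 0 := by simpa using hx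
    show A.mkQ x ∈ Y
    rw [h0]; exact Y.zero_mem
  -- codimensions
  have key : ∀ P R : Submodule F (V ⧸ A), IsCompl P R → Module.rank F R = Module.rank F (V ⧸ A) →
      Module.rank F (V ⧸ P.comap A.mkQ) = Module.rank F V := by
    intro P R hPR hR
    apply le_antisymm (rank_quotient_le _)
    rw [← hr, ← hR]
    refine (rank_le_rank_quotient hPR.inf_eq_bot).trans ?_
    let φ : (V ⧸ P.comap A.mkQ) →ₗ[F] ((V ⧸ A) ⧸ P) :=
      (P.comap A.mkQ).liftQ (P.mkQ ∘ₗ A.mkQ) (by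
        intro x hx
        have hx' : A.mkQ x ∈ P := hx
        rw [LinearMap.mem_ker]
        show P.mkQ (A.mkQ x) = 0
        rwa [Submodule.mkQ_apply, Submodule.Quotient.mk_eq_zero])
    refine LinearMap.rank_le_of_surjective φ ?_
    intro z
    obtain ⟨z, rfl⟩ := P.mkQ_surjective z
    obtain ⟨z, rfl⟩ := A.mkQ_surjective z
    exact ⟨(P.comap A.mkQ).mkQ z, rfl⟩
  have hcX := key X Y hXY hY
  have hcY := key Y X hXY.symm hX
  by_cases hmem : X.comap A.mkQ ∈ 𝓘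
  · exact ⟨_, hmem, Y.comap A.mkQ, hleX, hleY, hsup, hcY⟩
  · obtain ⟨W, hW, hXW⟩ := h.exists_codisjoint hmem
    refine ⟨W ⊔ A, h.1.sup_mem _ _ hW hA, X.comap A.mkQ, le_sup_right, hleX, ?_, hcX⟩
    rw [eq_top_iff, ← hXW]
    exact sup_le le_sup_right (le_sup_left.trans le_sup_left)

/-- A `g` that agrees with `p` modulo `p • A` for a member `A` of `𝓐` translates `𝓐` like `p`. -/
lemma smul_eq_smul {𝓐 : Set (Submodule F V)} (h : IsMaximalIdeal 𝓐) {g p : V ≃ₗ[F] V}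
    {A : Submodule F V} (hA : A ∈ 𝓐) (hgp : ∀ x, g x - p x ∈ p • A) : g • 𝓐 = p • 𝓐 := by
  refine ((h.smul g).2 (p • 𝓐) (h.smul p).1 ?_).symm
  intro B hB
  rw [mem_smul_set] at hB
  have h1 : p • ((g⁻¹ • B) ⊔ A) ∈ p • 𝓐 := Set.smul_mem_smul_set (h.1.sup_mem _ _ hB hA)
  refine (h.smul p).1.mem_of_le _ _ h1 ?_
  intro x hx
  rw [smul_sup]
  have h2 : g⁻¹ x ∈ g⁻¹ • B := smul_mem_sub _ _ hx
  have h3 : p (g⁻¹ x) ∈ p • (g⁻¹ • B) := smul_mem_sub _ _ h2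
  have h4 := hgp (g⁻¹ x)
  have h5 : g (g⁻¹ x) = x := g.apply_symm_apply x
  rw [h5] at h4
  have h6 : x = p (g⁻¹ x) + (x - p (g⁻¹ x)) := by abel
  rw [h6]
  exact Submodule.add_mem_sup h3 h4

lemma rank_quotient_smul (g : V ≃ₗ[F] V) (U : Submodule F V) :
    Module.rank F (V ⧸ (g • U)) = Module.rank F (V ⧸ U) := by
  rw [smul_eq_map]
  exact (Submodule.Quotient.equiv U _ g rfl).symm.rank_eq

/-- A subspace of small codimension. -/
lemma rank_eq_of_quotient_lt (hV : ℵ₀ ≤ Module.rank F V) {S : Submodule F V}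
    (hS : Module.rank F (V ⧸ S) < Module.rank F V) : Module.rank F S = Module.rank F V := by
  have h1 := Submodule.rank_quotient_add_rank S
  apply le_antisymm (Submodule.rank_le _)
  by_contra hcon
  push Not at hcon
  have h2 := Cardinal.add_lt_of_lt hV hS hcon
  rw [h1] at h2
  exact lt_irrefl _ h2

lemma rank_quotient_inf_lt (hV : ℵ₀ ≤ Module.rank F V) {S T : Submodule F V}
    (hS : Module.rank F (V ⧸ S) < Module.rank F V) (hT : Module.rank F (V ⧸ T) < Module.rank F V) :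
    Module.rank F (V ⧸ (S ⊓ T)) < Module.rank F V := by
  let φ : V →ₗ[F] (V ⧸ S) × (V ⧸ T) := LinearMap.prod S.mkQ T.mkQ
  have hker : S ⊓ T ≤ LinearMap.ker φ := by
    rintro x ⟨h1, h2⟩
    rw [LinearMap.mem_ker]
    have e1 : S.mkQ x = 0 := by simpa using h1
    have e2 : T.mkQ x = 0 := by simpa using h2
    show (S.mkQ x, T.mkQ x) = 0
    rw [e1, e2]; rfl
  have hinj : Function.Injective ((S ⊓ T).liftQ φ hker) := by
    rw [injective_iff_map_eq_zero]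
    intro z hz
    obtain ⟨z, rfl⟩ := (S ⊓ T).mkQ_surjective z
    have h1 : (S.mkQ z, T.mkQ z) = 0 := hz
    have e1 : S.mkQ z = 0 := congrArg Prod.fst h1
    have e2 : T.mkQ z = 0 := congrArg Prod.snd h1
    rw [Submodule.mkQ_apply, Submodule.Quotient.mk_eq_zero] at e1 e2 ⊢
    exact ⟨e1, e2⟩
  refine (LinearMap.rank_le_of_injective _ hinj).trans_lt ?_
  rw [rank_prod']
  exact Cardinal.add_lt_of_lt hV hS hT

/-- Gluing modulo two subspaces. -/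
lemma exists_coglue {A B : Submodule F V} (p q : V ≃ₗ[F] V)
    (hAB : A ⊔ B = ⊤) (hpq : (p • A) ⊔ (q • B) = ⊤)
    (h1 : Module.rank F ↥(A ⊓ B) = Module.rank F V)
    (h2 : Module.rank F ↥((p • A) ⊓ (q • B)) = Module.rank F V) :
    ∃ g : V ≃ₗ[F] V, (∀ x, g x - p x ∈ p • A) ∧ ∀ x, g x - q x ∈ q • B := by
  let π : V →ₗ[F] (V ⧸ (p • A)) × (V ⧸ (q • B)) :=
    LinearMap.prod ((p • A).mkQ ∘ₗ p.toLinearMap) ((q • B).mkQ ∘ₗ q.toLinearMap)
  let π' : V →ₗ[F] (V ⧸ (p • A)) × (V ⧸ (q • B)) := LinearMap.prod (p • A).mkQ (q • B).mkQ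
  have hπ : ∀ x, π x = ((p • A).mkQ (p x), (q • B).mkQ (q x)) := fun x => rfl
  have hπ' : ∀ x, π' x = ((p • A).mkQ x, (q • B).mkQ x) := fun x => rfl
  have hkπ : LinearMap.ker π = A ⊓ B := by
    ext x
    rw [LinearMap.mem_ker, hπ, Prod.mk_eq_zero, Submodule.mkQ_apply, Submodule.mkQ_apply,
      Submodule.Quotient.mk_eq_zero, Submodule.Quotient.mk_eq_zero, mem_smul_sub, mem_smul_sub]
    simp
  have hkπ' : LinearMap.ker π' = (p • A) ⊓ (q • B) := by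
    ext x
    rw [LinearMap.mem_ker, hπ', Prod.mk_eq_zero, Submodule.mkQ_apply, Submodule.mkQ_apply,
      Submodule.Quotient.mk_eq_zero, Submodule.Quotient.mk_eq_zero]
    rfl
  have hsπ' : Function.Surjective π' := by
    rintro ⟨x, y⟩
    obtain ⟨x, rfl⟩ := (p • A).mkQ_surjective x
    obtain ⟨y, rfl⟩ := (q • B).mkQ_surjective y
    have hxy : x - y ∈ (p • A) ⊔ (q • B) := by rw [hpq]; trivial
    obtain ⟨a, ha, b, hb, hab⟩ := Submodule.mem_sup.1 hxy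
    refine ⟨x - a, ?_⟩
    rw [hπ']
    have e1 : (p • A).mkQ a = 0 := by rwa [Submodule.mkQ_apply, Submodule.Quotient.mk_eq_zero]
    have e2 : (q • B).mkQ b = 0 := by rwa [Submodule.mkQ_apply, Submodule.Quotient.mk_eq_zero]
    have e3 : x - a = y + b := by
      rw [sub_eq_iff_eq_add, add_assoc, add_comm b a, hab]; abel
    have e4 : (q • B).mkQ (x - a) = (q • B).mkQ y := by rw [e3, map_add, e2, add_zero]
    rw [e4, map_sub, e1, sub_zero]
  have hsπ : Function.Surjective π := by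
    rintro ⟨x, y⟩
    obtain ⟨x, rfl⟩ := (p • A).mkQ_surjective x
    obtain ⟨y, rfl⟩ := (q • B).mkQ_surjective y
    have hxy : p.symm x - q.symm y ∈ A ⊔ B := by rw [hAB]; trivial
    obtain ⟨a, ha, b, hb, hab⟩ := Submodule.mem_sup.1 hxy
    refine ⟨p.symm x - a, ?_⟩
    rw [hπ]
    have e1 : (p • A).mkQ (p a) = 0 := by
      rw [Submodule.mkQ_apply, Submodule.Quotient.mk_eq_zero]; exact smul_mem_sub _ _ ha
    have e2 : (q • B).mkQ (q b) = 0 := by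
      rw [Submodule.mkQ_apply, Submodule.Quotient.mk_eq_zero]; exact smul_mem_sub _ _ hb
    have e3 : p.symm x - a = q.symm y + b := by
      rw [sub_eq_iff_eq_add, add_assoc, add_comm b a, hab]; abel
    have e4 : (q • B).mkQ (q (p.symm x - a)) = (q • B).mkQ y := by
      rw [e3, map_add, map_add, e2, add_zero]; simp
    rw [e4, map_sub, map_sub, e1, sub_zero]
    simp
  obtain ⟨g, hg⟩ := exists_equiv_lift π hsπ π' hsπ' (by rw [hkπ, hkπ', h1, h2])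
  refine ⟨g, fun x => ?_, fun x => ?_⟩
  · have h3 := congrArg Prod.fst (hg x)
    rw [hπ, hπ'] at h3
    simp only at h3
    rw [← Submodule.Quotient.mk_eq_zero, Submodule.Quotient.mk_sub, sub_eq_zero]
    exact h3
  · have h3 := congrArg Prod.snd (hg x)
    rw [hπ, hπ'] at h3
    simp only at h3
    rw [← Submodule.Quotient.mk_eq_zero, Submodule.Quotient.mk_sub, sub_eq_zero]
    exact h3

lemma two_transitive (h : IsMaximalIdeal 𝓘) (hV : ℵ₀ ≤ Module.rank F V) :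
    MulAction.IsMultiplyPretransitive (V ≃ₗ[F] V) (MulAction.orbit (V ≃ₗ[F] V) 𝓘) 2 := by
  rw [MulAction.is_two_pretransitive_iff]
  rintro ⟨_, ga, rfl⟩ ⟨_, gb, rfl⟩ ⟨_, gc, rfl⟩ ⟨_, gd, rfl⟩ hab hcd
  simp only at hab hcd
  have hab' : ga • 𝓘 ≠ gb • 𝓘 := fun hc => hab (Subtype.ext hc)
  have hcd' : gc • 𝓘 ≠ gd • 𝓘 := fun hc => hcd (Subtype.ext hc)
  obtain ⟨A₀, hA₀, B₀, hB₀, hAB₀⟩ := exists_sup_eq_top (h.smul ga) (h.smul gb) hab'
  obtain ⟨C₀, hC₀, D₀, hD₀, hCD₀⟩ := exists_sup_eq_top (h.smul gc) (h.smul gd) hcd'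
  set p : V ≃ₗ[F] V := gc * ga⁻¹ with hp
  set q : V ≃ₗ[F] V := gd * gb⁻¹ with hq
  have hpa : p • (ga • 𝓘) = gc • 𝓘 := by rw [hp, smul_smul, inv_mul_cancel_right]
  have hqb : q • (gb • 𝓘) = gd • 𝓘 := by rw [hq, smul_smul, inv_mul_cancel_right]
  have hA₁ : A₀ ⊔ (p⁻¹ • C₀) ∈ ga • 𝓘 := by
    refine (h.1.smul ga).sup_mem _ _ hA₀ ?_
    rw [← mem_smul_set, hpa]
    exact hC₀
  have hB₁ : B₀ ⊔ (q⁻¹ • D₀) ∈ gb • 𝓘 := by
    refine (h.1.smul gb).sup_mem _ _ hB₀ ?_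
    rw [← mem_smul_set, hqb]
    exact hD₀
  set A₁ := A₀ ⊔ (p⁻¹ • C₀) with hA₁def
  set B₁ := B₀ ⊔ (q⁻¹ • D₀) with hB₁def
  have hAB₁ : A₁ ⊔ B₁ = ⊤ := by
    rw [eq_top_iff, ← hAB₀]
    exact sup_le_sup le_sup_left le_sup_left
  have hpA₁ : C₀ ≤ p • A₁ := by
    have h1 : p • (p⁻¹ • C₀) ≤ p • A₁ := smul_mono p le_sup_right
    rwa [smul_inv_smul] at h1
  have hqB₁ : D₀ ≤ q • B₁ := by
    have h1 : q • (q⁻¹ • D₀) ≤ q • B₁ := smul_mono q le_sup_right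
    rwa [smul_inv_smul] at h1
  have hpq₁ : (p • A₁) ⊔ (q • B₁) = ⊤ := by
    rw [eq_top_iff, ← hCD₀]
    exact sup_le_sup hpA₁ hqB₁
  -- enlarge
  have henlarge : ∃ A₂ ∈ ga • 𝓘, ∃ B₂ ∈ gb • 𝓘, A₁ ≤ A₂ ∧ B₁ ≤ B₂ ∧
      Module.rank F ↥(A₂ ⊓ B₂) = Module.rank F V ∧
      Module.rank F ↥((p • A₂) ⊓ (q • B₂)) = Module.rank F V := by
    by_cases hsmall : ∃ U ∈ 𝓘, Module.rank F (V ⧸ U) < Module.rank F V
    · obtain ⟨U, hU, hUr⟩ := hsmall
      have hmono : ∀ S T : Submodule F V, S ≤ T → Module.rank F (V ⧸ T) ≤ Module.rank F (V ⧸ S) := by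
        intro S T hST
        refine LinearMap.rank_le_of_surjective (Submodule.mapQ S T LinearMap.id hST) ?_
        intro z
        obtain ⟨z, rfl⟩ := T.mkQ_surjective z
        exact ⟨S.mkQ z, rfl⟩
      have h1 : Module.rank F (V ⧸ (A₁ ⊔ (ga • U))) < Module.rank F V := by
        refine (hmono (ga • U) _ le_sup_right).trans_lt ?_
        rw [rank_quotient_smul]; exact hUr
      have h2 : Module.rank F (V ⧸ (B₁ ⊔ (gb • U))) < Module.rank F V := by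
        refine (hmono (gb • U) _ le_sup_right).trans_lt ?_
        rw [rank_quotient_smul]; exact hUr
      refine ⟨A₁ ⊔ (ga • U), (h.1.smul ga).sup_mem _ _ hA₁ (Set.smul_mem_smul_set hU),
        B₁ ⊔ (gb • U), (h.1.smul gb).sup_mem _ _ hB₁ (Set.smul_mem_smul_set hU),
        le_sup_left, le_sup_left, ?_, ?_⟩
      · exact rank_eq_of_quotient_lt hV (rank_quotient_inf_lt hV h1 h2)
      · refine rank_eq_of_quotient_lt hV (rank_quotient_inf_lt hV ?_ ?_)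
        · rw [rank_quotient_smul]; exact h1
        · rw [rank_quotient_smul]; exact h2
    · push Not at hsmall
      have hr : Module.rank F (V ⧸ A₁) = Module.rank F V := by
        apply le_antisymm (rank_quotient_le _)
        have h1 : ga⁻¹ • A₁ ∈ 𝓘 := mem_smul_set.1 hA₁
        have h2 := hsmall _ h1
        rwa [rank_quotient_smul] at h2
      obtain ⟨A₂, hA₂, D, hA₂A₁, hDA₁, hA₂D, hD⟩ := (h.smul ga).exists_half hV hA₁ hr
      refine ⟨A₂, hA₂, B₁, hB₁, hA₂A₁, le_rfl, ?_, ?_⟩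
      · apply le_antisymm (Submodule.rank_le _)
        rw [← hD]
        exact rank_quotient_le_rank (by
          rw [sup_comm]; exact inf_sup_eq_top hA₂A₁ hDA₁ hA₂D hAB₁)
      · apply le_antisymm (Submodule.rank_le _)
        rw [← hD, ← rank_quotient_smul p D]
        refine rank_quotient_le_rank ?_
        rw [sup_comm]
        refine inf_sup_eq_top (smul_mono p hA₂A₁) (smul_mono p hDA₁) ?_ hpq₁
        rw [← smul_sup, hA₂D, smul_top]
  obtain ⟨A₂, hA₂, B₂, hB₂, hle1, hle2, hr1, hr2⟩ := henlarge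
  have hAB₂ : A₂ ⊔ B₂ = ⊤ := by
    rw [eq_top_iff, ← hAB₁]
    exact sup_le_sup hle1 hle2
  have hpq₂ : (p • A₂) ⊔ (q • B₂) = ⊤ := by
    rw [eq_top_iff, ← hpq₁]
    exact sup_le_sup (smul_mono p hle1) (smul_mono q hle2)
  obtain ⟨g, hg1, hg2⟩ := exists_coglue p q hAB₂ hpq₂ hr1 hr2
  refine ⟨g, Subtype.ext ?_, Subtype.ext ?_⟩
  · show g • (ga • 𝓘) = gc • 𝓘
    rw [← hpa]
    exact smul_eq_smul (h.smul ga) hA₂ hg1
  · show g • (gb • 𝓘) = gd • 𝓘
    rw [← hqb]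
    exact smul_eq_smul (h.smul gb) hB₂ hg2

end Ideals

theorem main {F : Type u} {V : Type v} [Field F] [AddCommGroup V] [Module F V]
    (hV : ℵ₀ ≤ Module.rank F V) (𝓘 : Set (Submodule F V)) (h𝓘 : IsMaximalIdeal 𝓘) :
    transitivityDegree (V ≃ₗ[F] V) (MulAction.orbit (V ≃ₗ[F] V) 𝓘) = 2 := by
  obtain ⟨hinf, hnot⟩ := not_three h𝓘 hV
  apply le_antisymm
  · refine iSup₂_le fun k hk => ?_
    by_contra hcon
    push Not at hcon
    have h3 : 3 ≤ k := by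
      have : (2 : ℕ) < k := by exact_mod_cast hcon
      omega
    apply hnot
    have := hk.2
    refine MulAction.isMultiplyPretransitive_of_le' h3 ?_
    rw [ENat.card_eq_top_of_infinite]
    exact le_top
  · refine le_iSup₂_of_le 2 ⟨by norm_num, two_transitive h𝓘 hV⟩ ?_
    norm_num

end Pool.Agent.Lib.MP_5cf805_al.IdealProof
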